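import Pool.Agent.N725.JC.Fourier
import Pool.Agent.N725.JC.Cnt
import Pool.Agent.Y951.WP.Main
import Pool.Agent.H442R2.KF.Inc

set_option autoImplicit false
set_option linter.unusedSectionVars false

/-! # The values modulo `p` of several polynomials in classes of intervals -/

namespace Pool.Agent.N725.JC

open Finset Polynomial
open Pool.Agent.H256R2.SC.LG (count_Ioc)

section

variable {p : ℕ} [Fact p.Prime]

/-- the residues modulo `p` of the `n ∈ (A, A + H]` with `n ≡ r (mod q)` -/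
noncomputable def win (p q : ℕ) (A r : ℤ) (H : ℕ) : Finset (ZMod p) :=
  ((Ioc A (A + H)).filter (fun n : ℤ => (q : ℤ) ∣ n - r)).image (fun n : ℤ => (n : ZMod p))

lemma mem_win {q : ℕ} {A r : ℤ} {H : ℕ} {y : ZMod p} :
    y ∈ win p q A r H ↔ ∃ n : ℤ, A < n ∧ n ≤ A + H ∧ (q : ℤ) ∣ n - r ∧ (n : ZMod p) = y := by
  unfold win
  rw [mem_image]
  constructor
  · rintro ⟨n, hn, h⟩
    rw [mem_filter, mem_Ioc] at hn
    exact ⟨n, hn.1.1, hn.1.2, hn.2, h⟩
  · rintro ⟨n, h1, h2, h3, h4⟩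
    exact ⟨n, by rw [mem_filter, mem_Ioc]; exact ⟨⟨h1, h2⟩, h3⟩, h4⟩

lemma eq_of_win {A : ℤ} {H : ℕ} (hH : H ≤ p) {n m : ℤ} (h1 : A < n) (h2 : n ≤ A + H) (h3 : A < m)
    (h4 : m ≤ A + H) (h : (n : ZMod p) = (m : ZMod p)) : n = m := by
  have h5 : (p : ℤ) ∣ n - m := by
    rw [← ZMod.intCast_zmod_eq_zero_iff_dvd]
    push_cast
    rw [h, sub_self]
  have h6 : (H : ℤ) ≤ p := by exact_mod_cast hH
  have h7 : |n - m| < p := by
    rw [abs_lt]
    constructor <;> omega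
  have h8 := Int.eq_zero_of_abs_lt_dvd h5 h7
  omega

lemma card_win {q : ℕ} (hq : 1 ≤ q) {A r : ℤ} {H : ℕ} (hH : H ≤ p) :
    |((win p q A r H).card : ℝ) - (H : ℝ) / q| ≤ 1 := by
  have h1 : (win p q A r H).card = ((Ioc A (A + H)).filter (fun n : ℤ => (q : ℤ) ∣ n - r)).card := by
    unfold win
    apply card_image_of_injOn
    intro n hn m hm h
    rw [mem_coe, mem_filter, mem_Ioc] at hn hm
    exact eq_of_win hH hn.1.1 hn.1.2 hm.1.1 hm.1.2 h
  rw [h1]
  have h2 := count_Ioc A (A + H) (by omega) q hq r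
  push_cast at h2
  rwa [add_sub_cancel_left] at h2

lemma card_win_le {q : ℕ} {A r : ℤ} {H : ℕ} : (win p q A r H).card ≤ p := by
  have := Finset.card_le_univ (win p q A r H)
  rwa [ZMod.card] at this

lemma sum_win {q : ℕ} (hq : 1 ≤ q) (hqp : q < p) {A r : ℤ} {H : ℕ} (hH : H ≤ p) :
    ∑ h : ZMod p, ‖∑ w ∈ win p q A r H, (ZMod.stdAddChar (h * w) : ℂ)‖ ≤ p * (2 + Real.log p) := by
  have hp0 : (0 : ℝ) < p := by exact_mod_cast (Fact.out : p.Prime).pos
  have hp1 : (1 : ℝ) ≤ p := by exact_mod_cast (Fact.out : p.Prime).one_lt.le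
  have hlog : 0 ≤ Real.log p := Real.log_nonneg hp1
  rcases Nat.eq_zero_or_pos H with h0 | h0
  · subst h0
    have h1 : win p q A r 0 = ∅ := by
      unfold win
      simp
    rw [h1]
    simp
    positivity
  obtain ⟨m₀, T, -, hT⟩ := Pool.Agent.H442R2.KF.Inc.prog q hq r (A + 1) (A + H) (by omega)
  have h1 : (Ioc A (A + H)).filter (fun n : ℤ => (q : ℤ) ∣ n - r) =
      (range T).image (fun k : ℕ => m₀ + q * k) := by
    rw [← hT]
    ext n
    rw [mem_filter, mem_filter, mem_Ioc, mem_Icc]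
    have h2 : n ≡ r [ZMOD q] ↔ (q : ℤ) ∣ n - r := by
      rw [Int.modEq_comm]
      exact Int.modEq_iff_dvd
    rw [h2]
    constructor
    · rintro ⟨⟨a, b⟩, c⟩
      exact ⟨⟨by omega, b⟩, c⟩
    · rintro ⟨⟨a, b⟩, c⟩
      exact ⟨⟨by omega, b⟩, c⟩
  have hinj : Set.InjOn (fun n : ℤ => (n : ZMod p))
      (((range T).image (fun k : ℕ => m₀ + (q : ℤ) * k) : Finset ℤ) : Set ℤ) := by
    intro n hn m hm h
    rw [mem_coe, ← h1, mem_filter, mem_Ioc] at hn hm
    exact eq_of_win hH hn.1.1 hn.1.2 hm.1.1 hm.1.2 h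
  have hqz : (q : ℤ) ≠ 0 := by
    have : 0 < q := hq
    exact_mod_cast this.ne'
  have hinj2 : Set.InjOn (fun k : ℕ => m₀ + (q : ℤ) * k) (range T : Set ℕ) := by
    intro a _ b _ hab
    simp only at hab
    have h2 : (q : ℤ) * a = q * b := by linarith
    exact_mod_cast mul_left_cancel₀ hqz h2
  have hTp : T ≤ p := by
    have h2 : (win p q A r H).card = T := by
      unfold win
      rw [h1, card_image_of_injOn hinj, card_image_of_injOn hinj2, card_range]
    rw [← h2]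
    exact card_win_le
  have hqu : (q : ZMod p) ≠ 0 := by
    intro h
    rw [ZMod.natCast_eq_zero_iff] at h
    exact absurd (Nat.le_of_dvd hq h) (by omega)
  have h3 : ∀ h : ZMod p, ‖∑ w ∈ win p q A r H, (ZMod.stdAddChar (h * w) : ℂ)‖ =
      ‖∑ k ∈ range T, (ZMod.stdAddChar ((h * (q : ZMod p)) * (k : ZMod p)) : ℂ)‖ := by
    intro h
    have h4 : ∑ w ∈ win p q A r H, (ZMod.stdAddChar (h * w) : ℂ) =
        ZMod.stdAddChar (h * (m₀ : ZMod p)) * ∑ k ∈ range T, (ZMod.stdAddChar ((h * (q : ZMod p)) * (k : ZMod p)) : ℂ) := by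
      unfold win
      rw [h1, sum_image hinj, sum_image hinj2, Finset.mul_sum]
      refine Finset.sum_congr rfl fun k _ => ?_
      rw [← AddChar.map_add_eq_mul]
      congr 1
      push_cast
      ring
    rw [h4, norm_mul, AddChar.norm_apply, one_mul]
  simp_rw [h3]
  have h4 : ∑ h : ZMod p, ‖∑ k ∈ range T, (ZMod.stdAddChar ((h * (q : ZMod p)) * (k : ZMod p)) : ℂ)‖ =
      ∑ h : ZMod p, ‖∑ k ∈ range T, (ZMod.stdAddChar (h * (k : ZMod p)) : ℂ)‖ :=
    Fintype.sum_equiv (Equiv.mulRight₀ (q : ZMod p) hqu) _ _ fun h => rfl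
  rw [h4]
  have h5 := Pool.Agent.H442R2.KF.Inc.sumgeom p T
  have h6 : (T : ℝ) ≤ p := by exact_mod_cast hTp
  calc _ ≤ (T : ℝ) + p * (1 + Real.log p) := h5
    _ ≤ p * (2 + Real.log p) := by linarith

/-- **the count**: members of a family with the coordinates in classes of intervals -/
theorem win_count {α : Type} (k : ℕ) (S : Finset α) (hS : S.card ≤ p) (F : Fin k → α → ZMod p)
    (E : ℝ) (hE0 : 0 ≤ E)
    (hE : ∀ h : Fin k → ZMod p, h ≠ 0 → ‖∑ x ∈ S, (ZMod.stdAddChar (∑ i, h i * F i x) : ℂ)‖ ≤ E)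
    (q : ℕ) (hq : 1 ≤ q) (hqp : q < p) (A r : Fin k → ℤ) (H : Fin k → ℕ) (hH : ∀ i, H i ≤ p) :
    |((S.filter (fun x => ∀ i, F i x ∈ win p q (A i) (r i) (H i))).card : ℝ) -
      (∏ i, (H i : ℝ)) * S.card / (p : ℝ) ^ k / (q : ℝ) ^ k| ≤ E * (2 + Real.log p) ^ k + k := by
  have hp0 : (0 : ℝ) < p := by exact_mod_cast (Fact.out : p.Prime).pos
  have hp1 : (1 : ℝ) ≤ p := by exact_mod_cast (Fact.out : p.Prime).one_lt.le
  have hq0 : (0 : ℝ) < q := by exact_mod_cast hq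
  have hq1 : (1 : ℝ) ≤ q := by exact_mod_cast hq
  have h1 := fourier_count k S F (fun i => win p q (A i) (r i) (H i)) E (p * (2 + Real.log p)) hE0 hE
    (fun i => sum_win hq hqp (hH i))
  rw [mul_div_cancel_left₀ _ hp0.ne'] at h1
  have h2 := prod_close (univ : Finset (Fin k)) (fun i => ((win p q (A i) (r i) (H i)).card : ℝ))
    (fun i => (H i : ℝ) / q) p hp1
    (fun i _ => ⟨Nat.cast_nonneg _, by exact_mod_cast card_win_le⟩)
    (fun i _ => ⟨by positivity, by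
      rw [div_le_iff₀ hq0]
      have h3 : (H i : ℝ) ≤ p := by exact_mod_cast hH i
      nlinarith⟩)
    (fun i _ => card_win hq (hH i))
  rw [card_univ, Fintype.card_fin, Finset.prod_div_distrib, Finset.prod_const, card_univ,
    Fintype.card_fin] at h2
  have hSp : (S.card : ℝ) ≤ p := by exact_mod_cast hS
  have h3 : |(∏ i, ((win p q (A i) (r i) (H i)).card : ℝ)) * S.card / (p : ℝ) ^ k -
      (∏ i, (H i : ℝ)) * S.card / (p : ℝ) ^ k / (q : ℝ) ^ k| ≤ k := by
    have e : (∏ i, ((win p q (A i) (r i) (H i)).card : ℝ)) * S.card / (p : ℝ) ^ k -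
        (∏ i, (H i : ℝ)) * S.card / (p : ℝ) ^ k / (q : ℝ) ^ k =
        (∏ i, ((win p q (A i) (r i) (H i)).card : ℝ) - (∏ i, (H i : ℝ)) / (q : ℝ) ^ k) * S.card /
          (p : ℝ) ^ k := by
      field_simp
    have hSn : |(S.card : ℝ)| = S.card := abs_of_nonneg (Nat.cast_nonneg _)
    rw [e, abs_div, abs_mul, hSn, abs_of_pos (pow_pos hp0 k), div_le_iff₀ (pow_pos hp0 k)]
    exact (mul_le_mul_of_nonneg_left hSp (abs_nonneg _)).trans h2
  calc _ = |(((S.filter (fun x => ∀ i, F i x ∈ win p q (A i) (r i) (H i))).card : ℝ) -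
        (∏ i, ((win p q (A i) (r i) (H i)).card : ℝ)) * S.card / (p : ℝ) ^ k) +
        ((∏ i, ((win p q (A i) (r i) (H i)).card : ℝ)) * S.card / (p : ℝ) ^ k -
        (∏ i, (H i : ℝ)) * S.card / (p : ℝ) ^ k / (q : ℝ) ^ k)| := by
        congr 1
        ring
    _ ≤ _ := (abs_add_le _ _).trans (add_le_add h1 h3)

/-- Weil's bound for the combinations of several polynomials -/
theorem poly_sum (k D : ℕ) (f : Fin k → (ZMod p)[X]) (hD : ∀ i, (f i).natDegree ≤ D) (hDp : D < p)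
    (hf : ∀ h : Fin k → ZMod p, h ≠ 0 → 1 ≤ (∑ i, C (h i) * f i).natDegree)
    (h : Fin k → ZMod p) (hh : h ≠ 0) :
    ‖∑ x : ZMod p, (ZMod.stdAddChar (∑ i, h i * (f i).eval x) : ℂ)‖ ≤ D * Real.sqrt p := by
  have h1 := hf h hh
  have h2 : (∑ i, C (h i) * f i).natDegree ≤ D :=
    natDegree_sum_le_of_forall_le _ _ fun i _ => (natDegree_C_mul_le _ _).trans (hD i)
  have h3 := Pool.Agent.Y951.WP.weil_le p (∑ i, C (h i) * f i) (by
    intro hd
    exact absurd (Nat.le_of_dvd h1 hd) (by omega)) (ZMod.isPrimitive_stdAddChar p)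
  have h4 : ∀ x : ZMod p, (∑ i, C (h i) * f i).eval x = ∑ i, h i * (f i).eval x := by
    intro x
    rw [eval_finsetSum]
    refine Finset.sum_congr rfl fun i _ => ?_
    rw [eval_mul, eval_C]
  simp_rw [h4] at h3
  refine h3.trans ?_
  refine mul_le_mul_of_nonneg_right ?_ (Real.sqrt_nonneg _)
  exact_mod_cast (by omega : (∑ i, C (h i) * f i).natDegree - 1 ≤ D)

end

end Pool.Agent.N725.JC
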