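import Mathlib

set_option autoImplicit false
set_option linter.unusedSectionVars false

/-! # Points with prescribed reductions modulo a prime: counting by exponential sums -/

namespace Pool.Agent.N725.JC

open Finset

section

variable {p : ℕ} [Fact p.Prime]

/-- orthogonality -/
lemma ind_eq (W : Finset (ZMod p)) (y : ZMod p) :
    (if y ∈ W then (1 : ℂ) else 0) = (p : ℂ)⁻¹ * ∑ h : ZMod p,
      (∑ w ∈ W, (ZMod.stdAddChar (-(h * w)) : ℂ)) * ZMod.stdAddChar (h * y) := by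
  have hp0 : (p : ℂ) ≠ 0 := by
    have := (Fact.out : p.Prime).ne_zero
    exact_mod_cast this
  have h1 : ∀ w : ZMod p, ∑ h : ZMod p, (ZMod.stdAddChar (-(h * w)) : ℂ) * ZMod.stdAddChar (h * y) =
      if w = y then (p : ℂ) else 0 := by
    intro w
    have h2 := AddChar.sum_mulShift (ψ := ZMod.stdAddChar (N := p)) (y - w)
      (ZMod.isPrimitive_stdAddChar p)
    have h3 : ∑ h : ZMod p, (ZMod.stdAddChar (-(h * w)) : ℂ) * ZMod.stdAddChar (h * y) =
        ∑ h : ZMod p, (ZMod.stdAddChar (h * (y - w)) : ℂ) := by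
      refine Finset.sum_congr rfl fun h _ => ?_
      rw [← AddChar.map_add_eq_mul]
      congr 1
      ring
    rw [h3, h2]
    by_cases h : w = y
    · rw [if_pos h, if_pos (by rw [h, sub_self]), ZMod.card]
    · rw [if_neg h, if_neg (fun h4 => h (sub_eq_zero.1 h4).symm)]
      simp
  have h4 : ∑ h : ZMod p, (∑ w ∈ W, (ZMod.stdAddChar (-(h * w)) : ℂ)) * ZMod.stdAddChar (h * y) =
      ∑ w ∈ W, (if w = y then (p : ℂ) else 0) := by
    simp_rw [Finset.sum_mul]
    rw [Finset.sum_comm]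
    exact Finset.sum_congr rfl fun w _ => h1 w
  rw [h4, Finset.sum_ite_eq']
  by_cases h : y ∈ W
  · rw [if_pos h, if_pos h, inv_mul_cancel₀ hp0]
  · rw [if_neg h, if_neg h, mul_zero]

lemma stdAddChar_sum {ι : Type} (s : Finset ι) (g : ι → ZMod p) :
    (ZMod.stdAddChar (∑ i ∈ s, g i) : ℂ) = ∏ i ∈ s, ZMod.stdAddChar (g i) := by
  classical
  induction s using Finset.induction_on with
  | empty => simp
  | insert j s hj ih => rw [Finset.sum_insert hj, Finset.prod_insert hj, AddChar.map_add_eq_mul, ih]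

/-- counting the members of a family with all coordinates in given sets of residues -/
theorem fourier_count {α : Type} (k : ℕ) (S : Finset α) (F : Fin k → α → ZMod p)
    (W : Fin k → Finset (ZMod p)) (E B : ℝ) (hE0 : 0 ≤ E)
    (hE : ∀ h : Fin k → ZMod p, h ≠ 0 → ‖∑ x ∈ S, (ZMod.stdAddChar (∑ i, h i * F i x) : ℂ)‖ ≤ E)
    (hB : ∀ i, ∑ h : ZMod p, ‖∑ w ∈ W i, (ZMod.stdAddChar (h * w) : ℂ)‖ ≤ B) :
    |((S.filter (fun x => ∀ i, F i x ∈ W i)).card : ℝ) -
      (∏ i, ((W i).card : ℝ)) * S.card / (p : ℝ) ^ k| ≤ E * (B / p) ^ k := by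
  classical
  have hp0 : (0 : ℝ) < p := by exact_mod_cast (Fact.out : p.Prime).pos
  obtain ⟨c, hc⟩ : ∃ c : Fin k → ZMod p → ℂ, c = fun i h =>
    ∑ w ∈ W i, (ZMod.stdAddChar (-(h * w)) : ℂ) := ⟨_, rfl⟩
  have hcB : ∀ i, ∑ h : ZMod p, ‖c i h‖ ≤ B := by
    intro i
    refine le_trans (le_of_eq ?_) (hB i)
    rw [hc]
    refine Fintype.sum_equiv (Equiv.neg (ZMod p)) _ _ fun h => ?_
    simp only [Equiv.neg_apply]
    congr 1
    refine Finset.sum_congr rfl fun w _ => ?_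
    congr 1
    ring
  have h1 : ∀ x, (if ∀ i, F i x ∈ W i then (1 : ℂ) else 0) =
      ((p : ℂ)⁻¹) ^ k * ∑ h : Fin k → ZMod p, (∏ i, c i (h i)) * ZMod.stdAddChar (∑ i, h i * F i x) := by
    intro x
    have h2 : (if ∀ i, F i x ∈ W i then (1 : ℂ) else 0) = ∏ i, (if F i x ∈ W i then (1 : ℂ) else 0) := by
      rw [Finset.prod_ite_zero]
      simp
    rw [h2]
    simp_rw [ind_eq]
    rw [Finset.prod_mul_distrib, Finset.prod_const, card_univ, Fintype.card_fin]
    congr 1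
    rw [Finset.prod_univ_sum, Fintype.piFinset_univ]
    refine Finset.sum_congr rfl fun h _ => ?_
    rw [Finset.prod_mul_distrib]
    congr 1
    · rw [hc]
    · exact (stdAddChar_sum _ _).symm
  have h2 : ((S.filter (fun x => ∀ i, F i x ∈ W i)).card : ℂ) =
      ((p : ℂ)⁻¹) ^ k * ∑ h : Fin k → ZMod p, (∏ i, c i (h i)) *
        ∑ x ∈ S, (ZMod.stdAddChar (∑ i, h i * F i x) : ℂ) := by
    rw [Finset.card_filter]
    push_cast
    simp_rw [h1]
    rw [← Finset.mul_sum, Finset.sum_comm]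
    congr 1
    refine Finset.sum_congr rfl fun h _ => ?_
    rw [Finset.mul_sum]
  have h3 : ∑ h : Fin k → ZMod p, (∏ i, c i (h i)) * ∑ x ∈ S, (ZMod.stdAddChar (∑ i, h i * F i x) : ℂ) =
      (∏ i, ((W i).card : ℂ)) * S.card + ∑ h ∈ univ.erase (0 : Fin k → ZMod p),
        (∏ i, c i (h i)) * ∑ x ∈ S, (ZMod.stdAddChar (∑ i, h i * F i x) : ℂ) := by
    rw [← Finset.add_sum_erase univ _ (mem_univ (0 : Fin k → ZMod p))]
    congr 1
    simp [hc]
  have h4 : ‖∑ h ∈ univ.erase (0 : Fin k → ZMod p),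
        (∏ i, c i (h i)) * ∑ x ∈ S, (ZMod.stdAddChar (∑ i, h i * F i x) : ℂ)‖ ≤ E * B ^ k := by
    refine (norm_sum_le _ _).trans ?_
    calc ∑ h ∈ univ.erase (0 : Fin k → ZMod p),
          ‖(∏ i, c i (h i)) * ∑ x ∈ S, (ZMod.stdAddChar (∑ i, h i * F i x) : ℂ)‖
        ≤ ∑ h ∈ univ.erase (0 : Fin k → ZMod p), (∏ i, ‖c i (h i)‖) * E := by
          refine Finset.sum_le_sum fun h hh => ?_
          rw [norm_mul, norm_prod]
          exact mul_le_mul_of_nonneg_left (hE h (Finset.ne_of_mem_erase hh))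
            (Finset.prod_nonneg fun _ _ => norm_nonneg _)
      _ ≤ ∑ h : Fin k → ZMod p, (∏ i, ‖c i (h i)‖) * E := by
          refine Finset.sum_le_sum_of_subset_of_nonneg (Finset.erase_subset _ _) fun h _ _ => ?_
          exact mul_nonneg (Finset.prod_nonneg fun _ _ => norm_nonneg _) hE0
      _ = (∏ i, ∑ h : ZMod p, ‖c i h‖) * E := by
          rw [← Finset.sum_mul, Finset.prod_univ_sum, Fintype.piFinset_univ]
      _ ≤ B ^ k * E := by
          refine mul_le_mul_of_nonneg_right ?_ hE0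
          calc ∏ i, ∑ h : ZMod p, ‖c i h‖ ≤ ∏ _i : Fin k, B :=
                Finset.prod_le_prod (fun _ _ => Finset.sum_nonneg fun _ _ => norm_nonneg _)
                  (fun i _ => hcB i)
            _ = B ^ k := by simp
      _ = E * B ^ k := mul_comm _ _
  have h5 : (((S.filter (fun x => ∀ i, F i x ∈ W i)).card : ℝ) -
      (∏ i, ((W i).card : ℝ)) * S.card / (p : ℝ) ^ k : ℝ) =
      ((((p : ℂ)⁻¹) ^ k * ∑ h ∈ univ.erase (0 : Fin k → ZMod p),
        (∏ i, c i (h i)) * ∑ x ∈ S, (ZMod.stdAddChar (∑ i, h i * F i x) : ℂ)) : ℂ) := by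
    push_cast
    rw [h2, h3]
    rw [mul_add, div_eq_mul_inv, ← inv_pow]
    ring
  have h6 : ‖((((S.filter (fun x => ∀ i, F i x ∈ W i)).card : ℝ) -
      (∏ i, ((W i).card : ℝ)) * S.card / (p : ℝ) ^ k : ℝ) : ℂ)‖ ≤ E * (B / p) ^ k := by
    rw [h5, norm_mul, norm_pow, norm_inv, Complex.norm_natCast]
    calc ((p : ℝ)⁻¹) ^ k * _ ≤ ((p : ℝ)⁻¹) ^ k * (E * B ^ k) :=
          mul_le_mul_of_nonneg_left h4 (by positivity)
      _ = E * (B / p) ^ k := by rw [div_pow, inv_pow]; ring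
  rwa [Complex.norm_real, Real.norm_eq_abs] at h6

end

/-- two products of close numbers -/
lemma prod_close {ι : Type} (s : Finset ι) (a b : ι → ℝ) (M : ℝ) (hM : 1 ≤ M)
    (ha : ∀ i ∈ s, 0 ≤ a i ∧ a i ≤ M) (hb : ∀ i ∈ s, 0 ≤ b i ∧ b i ≤ M)
    (hab : ∀ i ∈ s, |a i - b i| ≤ 1) :
    |∏ i ∈ s, a i - ∏ i ∈ s, b i| * M ≤ s.card * M ^ s.card := by
  classical
  induction s using Finset.induction_on with
  | empty => simp
  | insert j s hj ih =>
    rw [Finset.prod_insert hj, Finset.prod_insert hj, Finset.card_insert_of_notMem hj]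
    have ih' := ih (fun i hi => ha i (mem_insert_of_mem hi)) (fun i hi => hb i (mem_insert_of_mem hi))
      (fun i hi => hab i (mem_insert_of_mem hi))
    obtain ⟨a0, a1⟩ := ha j (mem_insert_self _ _)
    have hab' := hab j (mem_insert_self _ _)
    have hb0 : 0 ≤ ∏ i ∈ s, b i := Finset.prod_nonneg fun i hi => (hb i (mem_insert_of_mem hi)).1
    have hb1 : ∏ i ∈ s, b i ≤ M ^ s.card := by
      calc ∏ i ∈ s, b i ≤ ∏ _i ∈ s, M :=
            Finset.prod_le_prod (fun i hi => (hb i (mem_insert_of_mem hi)).1)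
              (fun i hi => (hb i (mem_insert_of_mem hi)).2)
        _ = M ^ s.card := by simp
    have e : a j * ∏ i ∈ s, a i - b j * ∏ i ∈ s, b i =
        a j * (∏ i ∈ s, a i - ∏ i ∈ s, b i) + (a j - b j) * ∏ i ∈ s, b i := by ring
    have h1 : |a j * ∏ i ∈ s, a i - b j * ∏ i ∈ s, b i| ≤
        M * |∏ i ∈ s, a i - ∏ i ∈ s, b i| + M ^ s.card := by
      rw [e]
      refine (abs_add_le _ _).trans ?_
      rw [abs_mul, abs_mul, abs_of_nonneg a0, abs_of_nonneg hb0]
      refine add_le_add (mul_le_mul_of_nonneg_right a1 (abs_nonneg _)) ?_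
      calc |a j - b j| * ∏ i ∈ s, b i ≤ 1 * M ^ s.card :=
            mul_le_mul hab' hb1 hb0 zero_le_one
        _ = M ^ s.card := one_mul _
    have hM0 : 0 ≤ M := by linarith
    calc |a j * ∏ i ∈ s, a i - b j * ∏ i ∈ s, b i| * M
        ≤ (M * |∏ i ∈ s, a i - ∏ i ∈ s, b i| + M ^ s.card) * M := mul_le_mul_of_nonneg_right h1 hM0
      _ = M * (|∏ i ∈ s, a i - ∏ i ∈ s, b i| * M) + M ^ s.card * M := by ring
      _ ≤ M * (s.card * M ^ s.card) + M ^ s.card * M := by
          have := mul_le_mul_of_nonneg_left ih' hM0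
          linarith
      _ = ((s.card + 1 : ℕ) : ℝ) * M ^ (s.card + 1) := by
          push_cast
          ring

end Pool.Agent.N725.JC
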