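import Pool.Agent.N725.JC.Gen
import Pool.Agent.Y837.SV.Mon

set_option autoImplicit false
set_option linter.unusedSectionVars false
set_option linter.unusedVariables false

/-! # Record neighbourhoods of all monomials at one member of a well distributed family; counting -/

namespace Pool.Agent.N725.JC

open Finset Filter
open Pool.Agent.H256R2.SC (ff crt_int)
open Pool.Agent.Y837.SV

open scoped Classical

/-- record neighbourhoods around the values of all the given monomials at one member of the family -/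
theorem fmono {ι : Type} [Fintype ι] (d : ℕ) (e : ι → Fin d → ℕ) (hinj : Function.Injective e)
    (he : ∀ j, Finset.univ.gcd (e j) = 1) :
    ∃ c : ℝ, 0 < c ∧ ∃ Z₀ : ℝ, ∀ Z : ℕ, Z₀ ≤ Z → ∀ (α : Type) (s : Finset α) (w : α → Fin d → ℤ),
      Fam d Z s w → ∃ a ∈ s, ∀ j, ∀ h : ℤ, |(h : ℝ)| ≤ c * ff Z →
        ∃ p : ℕ, p.Prime ∧ (p : ℝ) ≤ (Z : ℝ) ^ (1 / 10 : ℝ) ∧ (p : ℤ) ∣ (∏ i, w a i ^ e j i) + h := by
  obtain ⟨K, hK⟩ : ∃ K : ℝ, K = (d : ℝ) + 2 + ∑ i : ι, ∑ j : ι, ∑ s : Fin d, ∑ t : Fin d,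
      (((e i s : ℤ) * e j t - e i t * e j s).natAbs : ℝ) ^ 2 := ⟨_, rfl⟩
  have hsum0 : 0 ≤ ∑ i : ι, ∑ j : ι, ∑ s : Fin d, ∑ t : Fin d,
      (((e i s : ℤ) * e j t - e i t * e j s).natAbs : ℝ) ^ 2 :=
    Finset.sum_nonneg fun i _ => Finset.sum_nonneg fun j _ => Finset.sum_nonneg fun s _ =>
      Finset.sum_nonneg fun t _ => by positivity
  have hKd : (d : ℝ) + 2 ≤ K := by rw [hK]; linarith
  have hK0 : 0 ≤ K := by
    have : (0 : ℝ) ≤ d := Nat.cast_nonneg d
    linarith
  have hzero : ∀ j, ∏ i, (0 : ℤ) ^ e j i = 0 := by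
    intro j
    obtain ⟨w, hw⟩ := exists_bez (e j) (he j)
    have h1 : ∃ i, e j i ≠ 0 := by
      by_contra hcon
      push Not at hcon
      simp [hcon] at hw
    obtain ⟨i, hi⟩ := h1
    apply Finset.prod_eq_zero (mem_univ i)
    simp [hi]
  refine fgen3 d (fun j p x => ∏ i, x i ^ e j i) (fun j x => ∏ i, x i ^ e j i) ?_ 2 (fun _ _ => 0)
    (fun p _ => if p = 2 then 0 else 1) ?_ ?_ (fun _ => {0}) ?_ K (1 / 2) hK0 (by norm_num) le_rfl ?_ ?_
  · intro j p x
    push_cast
    rfl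
  · intro p hp hB j
    rw [hzero j]
    exact dvd_zero _
  · intro p hp hB j
    rw [if_neg (by omega : ¬ p = 2)]
    simp only [one_pow, prod_const_one]
    intro h
    have := Int.le_of_dvd one_pos h
    have := hp.one_lt
    omega
  · intro j r hr
    rw [mem_singleton] at hr
    refine ⟨2, Nat.prime_two, le_rfl, ?_⟩
    simp only
    rw [if_pos trivial, hzero j, hr, sub_self]
    exact dvd_zero _
  · intro p hp hB j r hr
    have hr0 : r ≠ 0 := by simpa using hr
    have : Fact p.Prime := ⟨hp⟩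
    have hp0 : (0 : ℝ) < p := by exact_mod_cast hp.pos
    have hp1 : (1 : ℝ) ≤ p := by exact_mod_cast hp.one_lt.le
    have h1 := mono_U (p := p) (e j) (he j) r hr0
    rw [Nat.card_eq_fintype_card, Fintype.card_subtype]
    have h2 : |(p : ℝ) * ((univ.filter (fun x : Fin d → ZMod p => ∏ i, x i ^ e j i = r)).card : ℝ) -
        (p : ℝ) ^ d| ≤ ((d : ℝ) + 2) * (p : ℝ) ^ d / p := by
      rw [le_div_iff₀ hp0]
      exact h1
    refine le_trans ?_ (h2.trans ?_)
    · exact le_rfl
    · have h3 : (1 : ℝ) / p ≤ (p : ℝ) ^ (-(1 / 2) : ℝ) := by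
        have : (1 : ℝ) / p = (p : ℝ) ^ (-1 : ℝ) := by
          rw [Real.rpow_neg_one, one_div]
        rw [this]
        exact Real.rpow_le_rpow_of_exponent_le hp1 (by norm_num)
      calc ((d : ℝ) + 2) * (p : ℝ) ^ d / p = ((d : ℝ) + 2) * (p : ℝ) ^ d * (1 / p) := by ring
        _ ≤ K * (p : ℝ) ^ d * (p : ℝ) ^ (-(1 / 2) : ℝ) := by
            apply mul_le_mul _ h3 (by positivity) (by positivity)
            exact mul_le_mul_of_nonneg_right hKd (by positivity)
  · intro p hp hB i j hij r r' hr hr'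
    have hr0 : r ≠ 0 := by simpa using hr
    have hr0' : r' ≠ 0 := by simpa using hr'
    have : Fact p.Prime := ⟨hp⟩
    obtain ⟨s, t, hst⟩ := exists_minor (e i) (e j) (he i) (he j) (fun h => hij (hinj h))
    have h1 := mono_pair (p := p) (e i) (e j) s t hst r r' hr0 hr0'
    rw [Nat.card_eq_fintype_card, Fintype.card_subtype]
    have h2 : (p : ℝ) ^ 2 * ((univ.filter (fun x : Fin d → ZMod p =>
        ∏ l, x l ^ e i l = r ∧ ∏ l, x l ^ e j l = r')).card : ℝ) ≤
        (((e i s : ℤ) * e j t - e i t * e j s).natAbs : ℝ) ^ 2 * (p : ℝ) ^ d := by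
      rw [mul_comm]
      exact_mod_cast h1
    refine le_trans ?_ (h2.trans ?_)
    · exact le_rfl
    · apply mul_le_mul_of_nonneg_right _ (by positivity)
      have h3 : (((e i s : ℤ) * e j t - e i t * e j s).natAbs : ℝ) ^ 2 ≤
          ∑ i : ι, ∑ j : ι, ∑ s : Fin d, ∑ t : Fin d,
            (((e i s : ℤ) * e j t - e i t * e j s).natAbs : ℝ) ^ 2 := by
        have a1 := Finset.single_le_sum (f := fun t : Fin d =>
          (((e i s : ℤ) * e j t - e i t * e j s).natAbs : ℝ) ^ 2) (fun t _ => by positivity) (mem_univ t)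
        have a2 := Finset.single_le_sum (f := fun s : Fin d => ∑ t : Fin d,
          (((e i s : ℤ) * e j t - e i t * e j s).natAbs : ℝ) ^ 2)
          (fun s _ => Finset.sum_nonneg fun t _ => by positivity) (mem_univ s)
        have a3 := Finset.single_le_sum (f := fun j : ι => ∑ s : Fin d, ∑ t : Fin d,
          (((e i s : ℤ) * e j t - e i t * e j s).natAbs : ℝ) ^ 2)
          (fun j _ => Finset.sum_nonneg fun s _ => Finset.sum_nonneg fun t _ => by positivity)
          (mem_univ j)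
        have a4 := Finset.single_le_sum (f := fun i : ι => ∑ j : ι, ∑ s : Fin d, ∑ t : Fin d,
          (((e i s : ℤ) * e j t - e i t * e j s).natAbs : ℝ) ^ 2)
          (fun i _ => Finset.sum_nonneg fun j _ => Finset.sum_nonneg fun s _ =>
            Finset.sum_nonneg fun t _ => by positivity) (mem_univ i)
        exact ((a1.trans a2).trans a3).trans a4
      have : (0 : ℝ) ≤ d := Nat.cast_nonneg d
      rw [hK]
      linarith

/-- If every well distributed subfamily has a good member, then many members are good. -/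
theorem fam_count {d Z : ℕ} {α : Type} (s : Finset α) (w : α → Fin d → ℤ) (hZ : 6 ≤ Z) (hs : s.Nonempty)
    (h : ∀ q : ℕ, 1 ≤ q → q ≤ Z → ∀ r : Fin d → ℤ,
      |((s.filter (fun x => ∀ j, (q : ℤ) ∣ w x j - r j)).card : ℝ) - s.card / (q : ℝ) ^ d| ≤
        s.card / (Z : ℝ) ^ (d + 2))
    (good : α → Prop) (hg : ∀ t : Finset α, Fam d Z t w → ∃ a ∈ t, good a) :
    (s.card : ℝ) / (Z : ℝ) ^ (d + 2) ≤ ((s.filter good).card : ℝ) := by
  by_contra hcon
  push Not at hcon
  have hZ6 : (6 : ℝ) ≤ Z := by exact_mod_cast hZ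
  have hZ1 : (1 : ℝ) ≤ Z := by linarith
  have hZ0 : (0 : ℝ) < Z := by linarith
  have hsc : (0 : ℝ) < s.card := by exact_mod_cast hs.card_pos
  obtain ⟨t, ht⟩ : ∃ t : Finset α, t = s.filter (fun x => ¬ good x) := ⟨_, rfl⟩
  obtain ⟨G, hG⟩ : ∃ G : Finset α, G = s.filter good := ⟨_, rfl⟩
  rw [← hG] at hcon
  have hcard : (G.card : ℝ) + t.card = s.card := by
    have := Finset.card_filter_add_card_filter_not (s := s) good
    rw [ht, hG]
    exact_mod_cast this
  have hZd : (1 : ℝ) ≤ (Z : ℝ) ^ (d + 1) := one_le_pow₀ hZ1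
  have hpow : (Z : ℝ) ^ (d + 2) = (Z : ℝ) ^ (d + 1) * Z := by rw [pow_succ]
  obtain ⟨y, hy⟩ : ∃ y : ℝ, y = s.card / (Z : ℝ) ^ (d + 2) := ⟨_, rfl⟩
  have hy0 : 0 < y := by rw [hy]; positivity
  have hys : y * 6 ≤ s.card := by
    rw [hy, div_mul_eq_mul_div, div_le_iff₀ (by positivity), hpow]
    have : (6 : ℝ) ≤ (Z : ℝ) ^ (d + 1) * Z := by nlinarith
    nlinarith
  have htc : (s.card : ℝ) / 2 ≤ t.card := by linarith
  have hfam : Fam d Z t w := by
    refine ⟨?_, ?_⟩
    · rw [← Finset.card_pos]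
      have : (0 : ℝ) < t.card := by linarith
      exact_mod_cast this
    intro q hq hqZ r
    have h1 := h q hq hqZ r
    have hq1 : (1 : ℝ) ≤ q := by exact_mod_cast hq
    have hqd : (1 : ℝ) ≤ (q : ℝ) ^ d := one_le_pow₀ hq1
    have h2 : ((t.filter (fun x => ∀ j, (q : ℤ) ∣ w x j - r j)).card : ℝ) +
        ((G.filter (fun x => ∀ j, (q : ℤ) ∣ w x j - r j)).card : ℝ) =
        ((s.filter (fun x => ∀ j, (q : ℤ) ∣ w x j - r j)).card : ℝ) := by
      have h3 := Finset.card_filter_add_card_filter_not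
        (s := s.filter (fun x => ∀ j, (q : ℤ) ∣ w x j - r j)) good
      rw [Finset.filter_filter, Finset.filter_filter] at h3
      have e1 : G.filter (fun x => ∀ j, (q : ℤ) ∣ w x j - r j) =
          s.filter (fun x => (∀ j, (q : ℤ) ∣ w x j - r j) ∧ good x) := by
        rw [hG, Finset.filter_filter]
        exact Finset.filter_congr fun x _ => and_comm
      have e2 : t.filter (fun x => ∀ j, (q : ℤ) ∣ w x j - r j) =
          s.filter (fun x => (∀ j, (q : ℤ) ∣ w x j - r j) ∧ ¬ good x) := by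
        rw [ht, Finset.filter_filter]
        exact Finset.filter_congr fun x _ => and_comm
      rw [e1, e2, add_comm]
      exact_mod_cast h3
    have h3 : ((G.filter (fun x => ∀ j, (q : ℤ) ∣ w x j - r j)).card : ℝ) ≤ G.card := by
      exact_mod_cast Finset.card_filter_le _ _
    have h3' : (0 : ℝ) ≤ ((G.filter (fun x => ∀ j, (q : ℤ) ∣ w x j - r j)).card : ℝ) :=
      Nat.cast_nonneg _
    have h4 : (s.card : ℝ) / (q : ℝ) ^ d - t.card / (q : ℝ) ^ d = G.card / (q : ℝ) ^ d := by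
      rw [← sub_div, ← hcard]
      congr 1
      ring
    have h5 : (G.card : ℝ) / (q : ℝ) ^ d ≤ G.card := div_le_self (Nat.cast_nonneg _) hqd
    have h5' : (0 : ℝ) ≤ (G.card : ℝ) / (q : ℝ) ^ d := by positivity
    rw [← hy] at h1 hcon
    have h6 : |((t.filter (fun x => ∀ j, (q : ℤ) ∣ w x j - r j)).card : ℝ) - t.card / (q : ℝ) ^ d| ≤
        3 * y := by
      rw [abs_le] at h1 ⊢
      constructor <;> linarith [h1.1, h1.2]
    refine h6.trans ?_
    rw [le_div_iff₀ (by positivity), hy, hpow]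
    calc 3 * ((s.card : ℝ) / ((Z : ℝ) ^ (d + 1) * Z)) * (Z : ℝ) ^ (d + 1)
        = 3 * s.card / Z := by
          field_simp
      _ ≤ s.card / 2 := by
          rw [div_le_div_iff₀ hZ0 (by norm_num)]
          nlinarith
      _ ≤ t.card := htc
  obtain ⟨a, ha, hga⟩ := hg t hfam
  rw [ht, mem_filter] at ha
  exact ha.2 hga

end Pool.Agent.N725.JC
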